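import Pool.Agent.Helper40.PR.Defs3
import Pool.Agent.Helper26.PR.TK7
import Pool.Agent.Helper54.PR.TK5

/-!
# PR-E8A: first conclusion from F1 in dimension at least three
-/

set_option autoImplicit false

namespace PR

open ContinuousLinearMap InnerProductSpace Complex

open scoped ComplexConjugate

section e8a

namespace E8A

/-! ### numbers -/

theorem exists_phase (a : ℂ) : ∃ s : ℂ, ‖s‖ ≤ 1 ∧ a * s = (‖a‖ : ℂ) := by
  by_cases ha : a = 0
  · exact ⟨0, by simp, by simp [ha]⟩
  · have hn : (‖a‖ : ℂ) ≠ 0 := by exact_mod_cast norm_ne_zero_iff.2 ha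
    refine ⟨conj a / ‖a‖, ?_, ?_⟩
    · rw [norm_div, RCLike.norm_conj, Complex.norm_real, norm_norm, div_self (norm_ne_zero_iff.2 ha)]
    · rw [mul_div_assoc', Complex.mul_conj, Complex.normSq_eq_norm_sq]
      push_cast
      field_simp

theorem num {p q p' q' : ℂ}
    (h : ∀ s t : ℂ, max ‖s‖ ‖t‖ = max ‖p * s + q * t‖ ‖p' * s + q' * t‖) : p = 0 ∨ q = 0 := by
  have bd : ∀ a b : ℂ, (∀ s t : ℂ, ‖a * s + b * t‖ ≤ max ‖s‖ ‖t‖) → ‖a‖ + ‖b‖ ≤ 1 := by
    intro a b hab
    obtain ⟨s, hs, hs'⟩ := exists_phase a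
    obtain ⟨t, ht, ht'⟩ := exists_phase b
    have h1 := hab s t
    rw [hs', ht'] at h1
    have h2 : ‖((‖a‖ : ℂ) + (‖b‖ : ℂ))‖ = ‖a‖ + ‖b‖ := by
      rw [← Complex.ofReal_add, Complex.norm_real, Real.norm_eq_abs, abs_of_nonneg (by positivity)]
    rw [h2] at h1
    exact h1.trans (max_le hs ht)
  have h1 := bd p q (fun s t => (le_max_left _ _).trans (h s t).symm.le)
  have h2 := bd p' q' (fun s t => (le_max_right _ _).trans (h s t).symm.le)
  have h10 := h 1 0
  have h01 := h 0 1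
  simp only [mul_one, mul_zero, add_zero, zero_add, norm_one, norm_zero] at h10 h01
  rw [max_eq_left (zero_le_one)] at h10
  rw [max_eq_right (zero_le_one)] at h01
  by_contra hcon
  push Not at hcon
  have hp := norm_pos_iff.2 hcon.1
  have hq := norm_pos_iff.2 hcon.2
  have e1 : ‖p'‖ = 1 := by
    rcases max_choice ‖p‖ ‖p'‖ with h3 | h3
    · rw [h3] at h10; linarith
    · rw [h3] at h10; exact h10.symm
  have e2 : ‖q'‖ = 1 := by
    rcases max_choice ‖q‖ ‖q'‖ with h3 | h3
    · rw [h3] at h01; linarith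
    · rw [h3] at h01; exact h01.symm
  linarith

theorem num2 {a b : ℂ} (h : ∀ s : ℂ, max ‖a + s‖ ‖a‖ = max ‖b + s‖ ‖b‖) : a = b := by
  by_contra hab
  have hd : 0 < ‖b - a‖ := norm_pos_iff.2 (sub_ne_zero.2 (Ne.symm hab))
  obtain ⟨R, hR⟩ := exists_nat_gt ((‖a‖ + ‖b‖) / ‖b - a‖)
  rw [div_lt_iff₀ hd] at hR
  have h1 := h ((R : ℂ) * (b - a) - a)
  have e1 : a + ((R : ℂ) * (b - a) - a) = (R : ℂ) * (b - a) := by ring
  have e2 : b + ((R : ℂ) * (b - a) - a) = ((R : ℂ) + 1) * (b - a) := by ring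
  rw [e1, e2, norm_mul, norm_mul, Complex.norm_natCast] at h1
  have e3 : ‖(R : ℂ) + 1‖ = (R : ℝ) + 1 := by
    have : (R : ℂ) + 1 = ((R + 1 : ℕ) : ℂ) := by push_cast; ring
    rw [this, Complex.norm_natCast]; push_cast; ring
  rw [e3, max_eq_left (by nlinarith [norm_nonneg a, norm_nonneg b]),
    max_eq_left (by nlinarith [norm_nonneg a, norm_nonneg b])] at h1
  nlinarith

/-! ### separation -/

variable {H : Type*} [NormedAddCommGroup H] [InnerProductSpace ℂ H] [CompleteSpace H]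

theorem exists_sep {n : ℕ} {v : Fin n → H} {w : H}
    (hw : w ∉ Submodule.span ℂ (Set.range v)) :
    ∃ y : H, (∀ i, inner ℂ y (v i) = 0) ∧ inner ℂ y w = (1 : ℂ) := by
  obtain ⟨f, hf, hw⟩ := exists_dual_sep hw
  refine ⟨(InnerProductSpace.toDual ℂ H).symm f, fun i => ?_, ?_⟩
  · rw [InnerProductSpace.toDual_symm_apply]; exact hf i
  · rw [InnerProductSpace.toDual_symm_apply]; exact hw

theorem sep1 {x w : H} (hw : ∀ a : ℂ, w ≠ a • x) :
    ∃ y : H, inner ℂ y x = (0 : ℂ) ∧ inner ℂ y w = (1 : ℂ) := by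
  have : w ∉ Submodule.span ℂ (Set.range ![x]) := by
    intro h
    simp only [Matrix.range_cons, Matrix.range_empty, Set.union_empty,
      Submodule.mem_span_singleton] at h
    obtain ⟨a, ha⟩ := h
    exact hw a ha.symm
  obtain ⟨y, hy, hy'⟩ := exists_sep this
  exact ⟨y, hy 0, hy'⟩

theorem sep2 {x v w : H} (hw : ∀ a b : ℂ, w ≠ a • x + b • v) :
    ∃ y : H, inner ℂ y x = (0 : ℂ) ∧ inner ℂ y v = (0 : ℂ) ∧ inner ℂ y w = (1 : ℂ) := by
  have : w ∉ Submodule.span ℂ (Set.range ![x, v]) := by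
    intro h
    simp only [Matrix.range_cons, Matrix.range_empty, Set.union_empty, Set.singleton_union,
      Submodule.mem_span_pair] at h
    obtain ⟨a, b, ha⟩ := h
    exact hw a b ha.symm
  obtain ⟨y, hy, hy'⟩ := exists_sep this
  exact ⟨y, hy 0, hy 1, hy'⟩

theorem sep3 {x v u w : H} (hw : ∀ a b c : ℂ, w ≠ a • x + b • v + c • u) :
    ∃ y : H, inner ℂ y x = (0 : ℂ) ∧ inner ℂ y v = (0 : ℂ) ∧ inner ℂ y u = (0 : ℂ) ∧
      inner ℂ y w = (1 : ℂ) := by
  have : w ∉ Submodule.span ℂ (Set.range ![x, v, u]) := by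
    intro h
    simp only [Matrix.range_cons, Matrix.range_empty, Set.union_empty, Set.singleton_union,
      Submodule.mem_span_triple] at h
    obtain ⟨a, b, c, ha⟩ := h
    exact hw a b c ha.symm
  obtain ⟨y, hy, hy'⟩ := exists_sep this
  exact ⟨y, hy 0, hy 1, hy 2, hy'⟩

/-! ### the two vector lemma -/

theorem mem_span3 {x v w v' w' : H}
    (h : ∀ y : H, inner ℂ x y = (0 : ℂ) →
      max ‖(inner ℂ y v : ℂ)‖ ‖(inner ℂ y w : ℂ)‖ = max ‖(inner ℂ y v' : ℂ)‖ ‖(inner ℂ y w' : ℂ)‖) :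
    (∃ a b c : ℂ, v' = a • x + b • v + c • w) ∧ (∃ a b c : ℂ, w' = a • x + b • v + c • w) := by
  constructor
  · by_contra hcon
    push Not at hcon
    obtain ⟨y, h1, h2, h3, h4⟩ := sep3 hcon
    have := h y (inner_eq_zero_symm.1 h1)
    rw [h2, h3, h4] at this
    have h5 := le_max_left ‖(1 : ℂ)‖ ‖(inner ℂ y w' : ℂ)‖
    rw [← this] at h5
    simp at h5
    linarith
  · by_contra hcon
    push Not at hcon
    obtain ⟨y, h1, h2, h3, h4⟩ := sep3 hcon
    have := h y (inner_eq_zero_symm.1 h1)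
    rw [h2, h3, h4] at this
    have h5 := le_max_right ‖(inner ℂ y v' : ℂ)‖ ‖(1 : ℂ)‖
    rw [← this] at h5
    simp at h5
    linarith

theorem two_vec {x v w v' w' : H}
    (h : ∀ y : H, inner ℂ x y = (0 : ℂ) →
      max ‖(inner ℂ y v : ℂ)‖ ‖(inner ℂ y w : ℂ)‖ = max ‖(inner ℂ y v' : ℂ)‖ ‖(inner ℂ y w' : ℂ)‖) :
    (∃ a b : ℂ, v' = a • x + b • v) ∨ (∃ a b : ℂ, v' = a • x + b • w) := by
  obtain ⟨⟨a, p, q, e1⟩, ⟨a', p', q', e2⟩⟩ := mem_span3 h
  by_cases hv : ∃ c d : ℂ, v = c • x + d • w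
  · obtain ⟨c, d, hv⟩ := hv
    refine Or.inr ⟨a + p * c, p * d + q, ?_⟩
    rw [e1, hv]
    module
  by_cases hw : ∃ c d : ℂ, w = c • x + d • v
  · obtain ⟨c, d, hw⟩ := hw
    refine Or.inl ⟨a + q * c, p + q * d, ?_⟩
    rw [e1, hw]
    module
  push Not at hv hw
  obtain ⟨y1, h1x, h1w, h1v⟩ := sep2 hv
  obtain ⟨y2, h2x, h2v, h2w⟩ := sep2 hw
  have key : ∀ s t : ℂ, max ‖s‖ ‖t‖ = max ‖p * s + q * t‖ ‖p' * s + q' * t‖ := by
    intro s t
    have h3 := h (conj s • y1 + conj t • y2) (by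
      apply inner_eq_zero_symm.1
      rw [inner_add_left, inner_smul_left, inner_smul_left, h1x, h2x]
      simp)
    have f1 : inner ℂ (conj s • y1 + conj t • y2) v = s := by
      rw [inner_add_left, inner_smul_left, inner_smul_left, h1v, h2v]; simp
    have f2 : inner ℂ (conj s • y1 + conj t • y2) w = t := by
      rw [inner_add_left, inner_smul_left, inner_smul_left, h1w, h2w]; simp
    have f0 : inner ℂ (conj s • y1 + conj t • y2) x = (0 : ℂ) := by
      rw [inner_add_left, inner_smul_left, inner_smul_left, h1x, h2x]; simp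
    have f3 : inner ℂ (conj s • y1 + conj t • y2) v' = p * s + q * t := by
      rw [e1, inner_add_right, inner_add_right, inner_smul_right, inner_smul_right,
        inner_smul_right, f0, f1, f2]; ring
    have f4 : inner ℂ (conj s • y1 + conj t • y2) w' = p' * s + q' * t := by
      rw [e2, inner_add_right, inner_add_right, inner_smul_right, inner_smul_right,
        inner_smul_right, f0, f1, f2]; ring
    rw [f1, f2, f3, f4] at h3
    exact h3
  rcases num key with h4 | h4
  · refine Or.inr ⟨a, q, ?_⟩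
    rw [e1, h4]; module
  · refine Or.inl ⟨a, p, ?_⟩
    rw [e1, h4]; module

/-! ### the dichotomy -/

theorem det_zero {X : Type*} [NormedAddCommGroup X] [NormedSpace ℂ X] {v : Fin 3 → X}
    (g : Fin 3 → X →L[ℂ] ℂ) (h : ¬ LinearIndependent ℂ v) :
    (Matrix.of fun i j => g i (v j)).det = 0 := by
  rw [Fintype.not_linearIndependent_iff] at h
  obtain ⟨c, hc, i, hi⟩ := h
  apply Matrix.exists_mulVec_eq_zero_iff.1
  refine ⟨c, fun h0 => hi (by rw [h0]; rfl), ?_⟩
  funext k
  have := congrArg (g k) hc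
  rw [map_sum, map_zero] at this
  simp only [Matrix.mulVec, dotProduct, Matrix.of_apply, Pi.zero_apply]
  rw [← this]
  refine Finset.sum_congr rfl fun j _ => ?_
  rw [map_smul, smul_eq_mul, mul_comm]

theorem exists_poly {X : Type*} [NormedAddCommGroup X] [NormedSpace ℂ X] (A C : X →L[ℂ] X)
    {x0 : X} (h0 : LinearIndependent ℂ ![x0, A x0, C x0]) (d : X) :
    ∃ P : Polynomial ℂ, P.eval 0 ≠ 0 ∧
      ∀ t : ℂ, ¬ LinearIndependent ℂ ![x0 + t • d, A (x0 + t • d), C (x0 + t • d)] →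
        P.eval t = 0 := by
  classical
  choose g hg using fun i : Fin 3 => exists_dual_fin h0 (fun j => if i = j then 1 else 0)
  let M : Matrix (Fin 3) (Fin 3) (Polynomial ℂ) := Matrix.of fun i j =>
    Polynomial.C (g i (![x0, A x0, C x0] j)) + Polynomial.X * Polynomial.C (g i (![d, A d, C d] j))
  have hM : ∀ t : ℂ, M.det.eval t =
      (Matrix.of fun i j => g i (![x0 + t • d, A (x0 + t • d), C (x0 + t • d)] j)).det := by
    intro t
    have h1 : M.det.eval t = Polynomial.evalRingHom t M.det := rfl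
    rw [h1, RingHom.map_det]
    congr 1
    ext i j
    simp only [RingHom.mapMatrix_apply, Matrix.map_apply, M, Matrix.of_apply,
      Polynomial.coe_evalRingHom, Polynomial.eval_add, Polynomial.eval_C, Polynomial.eval_mul,
      Polynomial.eval_X]
    fin_cases j <;> simp
  refine ⟨M.det, ?_, fun t ht => ?_⟩
  · rw [hM 0]
    have : (Matrix.of fun i j => g i (![x0 + (0 : ℂ) • d, A (x0 + (0 : ℂ) • d),
        C (x0 + (0 : ℂ) • d)] j)) = (1 : Matrix (Fin 3) (Fin 3) ℂ) := by
      ext i j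
      rw [Matrix.of_apply, Matrix.one_apply, ← hg i j]
      simp
    rw [this, Matrix.det_one]
    exact one_ne_zero
  · rw [hM t]
    exact det_zero g ht

theorem dichotomy {X : Type*} [NormedAddCommGroup X] [NormedSpace ℂ X] (A B C : X →L[ℂ] X)
    (h : ∀ x, ¬ LinearIndependent ℂ ![x, A x, C x] ∨ ¬ LinearIndependent ℂ ![x, B x, C x]) :
    (∀ x, ¬ LinearIndependent ℂ ![x, A x, C x]) ∨ (∀ x, ¬ LinearIndependent ℂ ![x, B x, C x]) := by
  by_contra hcon
  push Not at hcon
  obtain ⟨⟨x0, h0⟩, ⟨x1, h1⟩⟩ := hcon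
  obtain ⟨P, hP0, hP⟩ := exists_poly A C h0 (x1 - x0)
  obtain ⟨Q, hQ0, hQ⟩ := exists_poly B C h1 (x0 - x1)
  have hz : P * Q.comp (1 - Polynomial.X) = 0 := by
    apply Polynomial.funext
    intro t
    rw [Polynomial.eval_mul, Polynomial.eval_comp, Polynomial.eval_zero]
    have hx : x1 + (1 - t) • (x0 - x1) = x0 + t • (x1 - x0) := by module
    rcases h (x0 + t • (x1 - x0)) with h2 | h2
    · rw [hP t h2, zero_mul]
    · have h3 : Polynomial.eval t (1 - Polynomial.X : Polynomial ℂ) = 1 - t := by simp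
      rw [h3, hQ (1 - t) (by rw [hx]; exact h2), mul_zero]
  rcases mul_eq_zero.1 hz with h2 | h2
  · rw [h2] at hP0; simp at hP0
  · have := congrArg (Polynomial.eval 1) h2
    rw [Polynomial.eval_comp] at this
    simp at this
    exact hQ0 this

/-! ### scalar operators -/

theorem scal_of_orth (A : H →L[ℂ] H) (h : ∀ x y : H, inner ℂ x y = (0 : ℂ) → inner ℂ y (A x) = (0 : ℂ)) :
    IsScal A := by
  apply scalar_of_eigen_all
  intro x
  by_contra hcon
  push Not at hcon
  obtain ⟨y, h1, h2⟩ := sep1 hcon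
  rw [h x y (inner_eq_zero_symm.1 h1)] at h2
  exact zero_ne_one h2

theorem exists_orth2 (hH : Dim3 H) (u p : H) :
    ∃ z : H, ‖z‖ = ‖u‖ ∧ inner ℂ u z = (0 : ℂ) ∧ inner ℂ p z = (0 : ℂ) := by
  classical
  have h1 : ∃ w : H, ∀ a b : ℂ, w ≠ a • u + b • p := by
    by_contra hcon
    push Not at hcon
    obtain ⟨v, hv⟩ := hH
    have htop : Submodule.span ℂ ({u, p} : Set H) = ⊤ := by
      rw [eq_top_iff]
      intro w _
      rw [Submodule.mem_span_pair]
      obtain ⟨a, b, hab⟩ := hcon w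
      exact ⟨a, b, hab.symm⟩
    have hfin : ({u, p} : Set H).Finite := Set.toFinite _
    have hfd : FiniteDimensional ℂ H := by
      have := FiniteDimensional.span_of_finite ℂ hfin
      rw [htop] at this
      exact Module.finite_def.2 (Module.Finite.iff_fg.1 this)
    have hc := hv.fintype_card_le_finrank
    have hr : Module.finrank ℂ H ≤ 2 := by
      have h3 := finrank_span_finset_le_card (R := ℂ) (({u, p} : Set H).toFinset)
      rw [Set.coe_toFinset, Set.finrank, htop, finrank_top] at h3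
      refine h3.trans ?_
      rw [Set.toFinset_insert, Set.toFinset_singleton]
      exact Finset.card_le_two
    rw [Fintype.card_fin] at hc
    omega
  obtain ⟨w, hw⟩ := h1
  obtain ⟨y, hy1, hy2, hy3⟩ := sep2 hw
  have hy0 : y ≠ 0 := by
    rintro rfl
    rw [inner_zero_left] at hy3
    exact zero_ne_one hy3
  have hn := norm_ne_zero_iff.2 hy0
  refine ⟨((‖u‖ / ‖y‖ : ℝ) : ℂ) • y, ?_, ?_, ?_⟩
  · rw [norm_smul, Complex.norm_real, Real.norm_eq_abs, abs_of_nonneg (by positivity)]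
    field_simp
  · rw [inner_smul_right, inner_eq_zero_symm.1 hy1, mul_zero]
  · rw [inner_smul_right, inner_eq_zero_symm.1 hy2, mul_zero]

omit [CompleteSpace H] in
theorem same_phase {u : H} (f g : H →L[ℂ] ℂ)
    (h : ∀ y : H, inner ℂ u y = (0 : ℂ) → ‖f y‖ = ‖g y‖) :
    ∃ ζ : ℂ, ‖ζ‖ = 1 ∧ ∀ y : H, inner ℂ u y = (0 : ℂ) → g y = ζ * f y := by
  by_cases hf : ∀ y : H, inner ℂ u y = (0 : ℂ) → f y = 0
  · refine ⟨1, norm_one, fun y hy => ?_⟩
    have := h y hy
    rw [hf y hy, norm_zero] at this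
    rw [hf y hy, mul_zero]
    exact norm_eq_zero.1 this.symm
  · push Not at hf
    obtain ⟨w, hw, hfw⟩ := hf
    refine ⟨g w / f w, ?_, fun y hy => ?_⟩
    · rw [norm_div, ← h w hw, div_self (norm_ne_zero_iff.2 hfw)]
    · have h1 := h (y - (f y / f w) • w) (by
        rw [inner_sub_right, inner_smul_right, hy, hw]; ring)
      have h2 : f (y - (f y / f w) • w) = 0 := by
        rw [map_sub, map_smul, smul_eq_mul]; field_simp; ring
      rw [h2, norm_zero] at h1
      have h3 := norm_eq_zero.1 h1.symm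
      rw [map_sub, map_smul, smul_eq_mul, sub_eq_zero] at h3
      rw [h3]; field_simp

theorem rank_one_case (hH : Dim3 H) {l m : ℂ} {u : H} (hu : u ≠ 0) {f g : H →L[ℂ] ℂ}
    (hf : f ≠ 0)
    (h : ∀ x y : H, inner ℂ x y = (0 : ℂ) →
      max ‖(inner ℂ y ((l • (1 : H →L[ℂ] H) + rk u f) x) : ℂ)‖
        ‖(inner ℂ x ((l • (1 : H →L[ℂ] H) + rk u f) y) : ℂ)‖ =
      max ‖(inner ℂ y ((m • (1 : H →L[ℂ] H) + rk u g) x) : ℂ)‖
        ‖(inner ℂ x ((m • (1 : H →L[ℂ] H) + rk u g) y) : ℂ)‖) :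
    ∃ ζ : ℂ, ‖ζ‖ = 1 ∧ g = ζ • f := by
  have ev : ∀ (c : ℂ) (k : H →L[ℂ] ℂ) (x y : H), inner ℂ y x = (0 : ℂ) →
      inner ℂ y ((c • (1 : H →L[ℂ] H) + rk u k) x) = k x * inner ℂ y u := by
    intro c k x y hxy
    simp only [add_apply, smul_apply,
      one_apply_eq_self, rk_apply, inner_add_right, inner_smul_right, hxy]
    ring
  have h' : ∀ x y : H, inner ℂ x y = (0 : ℂ) →
      max ‖f x * inner ℂ y u‖ ‖f y * inner ℂ x u‖ = max ‖g x * inner ℂ y u‖ ‖g y * inner ℂ x u‖ := by
    intro x y hxy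
    have h1 := h x y hxy
    rw [ev l f x y (inner_eq_zero_symm.1 hxy), ev l f y x hxy,
      ev m g x y (inner_eq_zero_symm.1 hxy), ev m g y x hxy] at h1
    exact h1
  set N : ℂ := inner ℂ u u with hN
  have hN0 : N ≠ 0 := inner_self_ne_zero.2 hu
  have hNn : 0 < ‖N‖ := norm_pos_iff.2 hN0
  have hph : ∀ y : H, inner ℂ u y = (0 : ℂ) → ‖f y‖ = ‖g y‖ := by
    intro y hy
    have h1 := h' u y hy
    rw [inner_eq_zero_symm.1 hy, ← hN] at h1
    simp only [mul_zero, norm_zero, norm_mul] at h1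
    rw [max_eq_right (by positivity), max_eq_right (by positivity)] at h1
    exact mul_right_cancel₀ hNn.ne' h1
  obtain ⟨ζ, hζ, hζ'⟩ := same_phase f g hph
  have hζ0 : ζ ≠ 0 := by rintro rfl; simp at hζ
  have dec : ∀ z : H, ∃ (c : ℂ) (z' : H), inner ℂ u z' = (0 : ℂ) ∧ z = c • u + z' := by
    intro z
    refine ⟨inner ℂ u z / N, z - (inner ℂ u z / N) • u, ?_, by module⟩
    rw [inner_sub_right, inner_smul_right, ← hN]
    field_simp
    ring
  by_cases hfu : ∀ y : H, inner ℂ u y = (0 : ℂ) → f y = 0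
  · have hgu : ∀ y : H, inner ℂ u y = (0 : ℂ) → g y = 0 := by
      intro y hy; rw [hζ' y hy, hfu y hy, mul_zero]
    obtain ⟨z, hz1, hz2, -⟩ := exists_orth2 hH u 0
    have hzz : inner ℂ z z = N := by
      rw [hN, inner_self_eq_norm_sq_to_K, inner_self_eq_norm_sq_to_K, hz1]
    have hzu := inner_eq_zero_symm.1 hz2
    have h1 := h' (u - z) (u + z) (by
      rw [inner_sub_left, inner_add_right, inner_add_right, hz2, hzu, hzz, ← hN]; ring)
    have e1 : inner ℂ (u + z) u = N := by rw [inner_add_left, hzu, ← hN, add_zero]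
    have e2 : inner ℂ (u - z) u = N := by rw [inner_sub_left, hzu, ← hN, sub_zero]
    rw [e1, e2, map_sub, map_add, map_sub, map_add, hfu z hz2, hgu z hz2] at h1
    simp only [sub_zero, add_zero, max_self, norm_mul] at h1
    have h2 := mul_right_cancel₀ hNn.ne' h1
    have hfu0 : f u ≠ 0 := by
      intro h3
      apply hf
      ext w
      obtain ⟨c, w', hw', rfl⟩ := dec w
      rw [map_add, map_smul, h3, hfu w' hw']; simp
    refine ⟨g u / f u, ?_, ?_⟩
    · rw [norm_div, ← h2, div_self (norm_ne_zero_iff.2 hfu0)]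
    · ext w
      obtain ⟨c, w', hw', rfl⟩ := dec w
      rw [map_add, map_smul, hgu w' hw', smul_apply, map_add, map_smul,
        hfu w' hw']
      simp only [smul_eq_mul, add_zero]
      field_simp
  · push Not at hfu
    obtain ⟨w, hw, hfw⟩ := hfu
    set p : H := (InnerProductSpace.toDual ℂ H).symm f with hp
    have hpf : ∀ z, inner ℂ p z = f z := fun z => InnerProductSpace.toDual_symm_apply
    obtain ⟨c, q, hq, hpq⟩ := dec p
    obtain ⟨z, hz1, hz2, hz3⟩ := exists_orth2 hH u p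
    have hzz : inner ℂ z z = N := by
      rw [hN, inner_self_eq_norm_sq_to_K, inner_self_eq_norm_sq_to_K, hz1]
    have hzu := inner_eq_zero_symm.1 hz2
    have hfz : f z = 0 := by rw [← hpf]; exact hz3
    have hqz : inner ℂ q z = (0 : ℂ) := by
      have : q = p - c • u := by rw [hpq]; module
      rw [this, inner_sub_left, inner_smul_left, hz2, hz3]; simp
    have hfq : f q ≠ 0 := by
      intro h3
      have h4 : inner ℂ q q = (0 : ℂ) := by
        have : inner ℂ p q = (0 : ℂ) := by rw [hpf, h3]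
        rw [hpq, inner_add_left, inner_smul_left, hq] at this
        simpa using this
      have h5 : q = 0 := inner_self_eq_zero.1 h4
      apply hfw
      rw [← hpf, hpq, h5, add_zero, inner_smul_left, hw, mul_zero]
    have hqu := inner_eq_zero_symm.1 hq
    have hzq := inner_eq_zero_symm.1 hqz
    have hgz : g z = 0 := by rw [hζ' z hz2, hfz, mul_zero]
    have hab : f u = ζ⁻¹ * g u := by
      apply num2
      intro s
      have h1 := h' (u + (s / f q) • q - z) (u + z) (by
        rw [inner_sub_left, inner_add_left, inner_smul_left, inner_add_right, inner_add_right,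
          inner_add_right, hz2, hzu, hzz, hqu, hqz, ← hN]; ring)
      have e1 : inner ℂ (u + z) u = N := by rw [inner_add_left, hzu, ← hN, add_zero]
      have e2 : inner ℂ (u + (s / f q) • q - z) u = N := by
        rw [inner_sub_left, inner_add_left, inner_smul_left, hzu, hqu, ← hN]; ring
      have e3 : f (u + (s / f q) • q - z) = f u + s := by
        rw [map_sub, map_add, map_smul, hfz, smul_eq_mul]; field_simp; ring
      have e4 : g (u + (s / f q) • q - z) = g u + ζ * s := by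
        rw [map_sub, map_add, map_smul, hgz, hζ' q hq, smul_eq_mul]; field_simp; ring
      have e5 : f (u + z) = f u := by rw [map_add, hfz, add_zero]
      have e6 : g (u + z) = g u := by rw [map_add, hgz, add_zero]
      rw [e1, e2, e3, e4, e5, e6, norm_mul, norm_mul, norm_mul, norm_mul,
        ← max_mul_of_nonneg _ _ hNn.le, ← max_mul_of_nonneg _ _ hNn.le] at h1
      have h2 := mul_right_cancel₀ hNn.ne' h1
      rw [h2]
      have e7 : ‖g u + ζ * s‖ = ‖ζ⁻¹ * g u + s‖ := by
        have : g u + ζ * s = ζ * (ζ⁻¹ * g u + s) := by field_simp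
        rw [this, norm_mul, hζ, one_mul]
      have e8 : ‖g u‖ = ‖ζ⁻¹ * g u‖ := by rw [norm_mul, norm_inv, hζ, inv_one, one_mul]
      rw [e7, ← e8]
    refine ⟨ζ, hζ, ?_⟩
    ext v
    obtain ⟨c', v', hv', rfl⟩ := dec v
    rw [map_add, map_smul, hζ' v' hv', smul_apply, map_add, map_smul, hab]
    simp only [smul_eq_mul]
    field_simp

/-! ### main case -/

theorem case_main (hH : Dim3 H) {T T' : H →L[ℂ] H}
    (h : ∀ x y : H, inner ℂ x y = (0 : ℂ) → max ‖(inner ℂ y (T x) : ℂ)‖ ‖(inner ℂ x (T y) : ℂ)‖ =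
      max ‖(inner ℂ y (T' x) : ℂ)‖ ‖(inner ℂ x (T' y) : ℂ)‖)
    (hP : ∀ x, ¬ LinearIndependent ℂ ![x, T x, T' x]) :
    ∃ α β : ℂ, ‖α‖ = 1 ∧ T' = α • T + β • (1 : H →L[ℂ] H) := by
  by_cases hT : IsScal T
  · obtain ⟨z, hz⟩ := hT
    have hT' : IsScal T' := by
      apply scal_of_orth
      intro x y hxy
      have h1 := h x y hxy
      have e1 : inner ℂ y (T x) = (0 : ℂ) := by
        rw [hz]; simp [inner_eq_zero_symm.1 hxy]
      have e2 : inner ℂ x (T y) = (0 : ℂ) := by
        rw [hz]; simp [hxy]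
      rw [e1, e2] at h1
      have h2 := le_max_left ‖(inner ℂ y (T' x) : ℂ)‖ ‖(inner ℂ x (T' y) : ℂ)‖
      rw [← h1] at h2
      simpa using h2
    obtain ⟨z', hz'⟩ := hT'
    refine ⟨1, z' - z, norm_one, ?_⟩
    rw [hz, hz']; module
  · have hne : ∃ x y : H, inner ℂ x y = (0 : ℂ) ∧ inner ℂ y (T x) ≠ (0 : ℂ) := by
      by_contra hcon
      push Not at hcon
      exact hT (scal_of_orth T hcon)
    have hnt : (1 : H →L[ℂ] H) ≠ 0 := by
      intro h0
      apply hT
      refine ⟨0, ?_⟩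
      rw [← mul_one T, h0, mul_zero, smul_zero]
    rcases lld T T' hH hP with ⟨p, q, r, hpqr, hrel⟩ | ⟨l, m, u, f, g, hTe, hTe'⟩
    · by_cases hq : q = 0
      · exfalso
        subst hq
        rw [zero_smul, add_zero] at hrel
        by_cases hp : p = 0
        · subst hp
          rw [zero_smul, zero_add] at hrel
          rcases smul_eq_zero.1 hrel with h1 | h1
          · exact hpqr (by rw [h1])
          · exact hnt h1
        · apply hT
          refine ⟨-(r / p), ?_⟩
          have h1 : T = p⁻¹ • (p • T) := by rw [smul_smul, inv_mul_cancel₀ hp, one_smul]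
          have h2 : p • T = -(r • (1 : H →L[ℂ] H)) := eq_neg_of_add_eq_zero_left hrel
          rw [h1, h2]
          rw [smul_neg, smul_smul, neg_smul]
          congr 2
          field_simp
      · have hT' : T' = (-(p / q)) • T + (-(r / q)) • (1 : H →L[ℂ] H) := by
          have h1 : T' = q⁻¹ • (q • T') := by rw [smul_smul, inv_mul_cancel₀ hq, one_smul]
          have h2 : q • T' = -(p • T) - r • (1 : H →L[ℂ] H) := by
            have : q • T' = (p • T + q • T' + r • (1 : H →L[ℂ] H)) - p • T - r • (1 : H →L[ℂ] H) := by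
              module
            rw [this, hrel]; module
          rw [h1, h2]
          rw [smul_sub, smul_neg, smul_smul, smul_smul]
          have e1 : q⁻¹ * p = p / q := by field_simp
          have e2 : q⁻¹ * r = r / q := by field_simp
          rw [e1, e2]; module
        refine ⟨-(p / q), -(r / q), ?_, hT'⟩
        obtain ⟨x, y, hxy, hne⟩ := hne
        have h1 := h x y hxy
        have ev : ∀ x y : H, inner ℂ y x = (0 : ℂ) →
            (inner ℂ y (T' x) : ℂ) = -(p / q) * inner ℂ y (T x) := by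
          intro x y hxy
          rw [hT']
          simp only [add_apply, smul_apply,
            one_apply_eq_self, inner_add_right, inner_smul_right, hxy]
          ring
        rw [ev x y (inner_eq_zero_symm.1 hxy), ev y x hxy, norm_mul, norm_mul,
          ← mul_max_of_nonneg _ _ (norm_nonneg _)] at h1
        have h2 : 0 < max ‖(inner ℂ y (T x) : ℂ)‖ ‖(inner ℂ x (T y) : ℂ)‖ :=
          lt_of_lt_of_le (norm_pos_iff.2 hne) (le_max_left _ _)
        have h3 : ‖-(p / q)‖ * max ‖(inner ℂ y (T x) : ℂ)‖ ‖(inner ℂ x (T y) : ℂ)‖ =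
            1 * max ‖(inner ℂ y (T x) : ℂ)‖ ‖(inner ℂ x (T y) : ℂ)‖ := by rw [one_mul]; exact h1.symm
        exact mul_right_cancel₀ h2.ne' h3
    · have hu : u ≠ 0 := by
        rintro rfl
        apply hT
        refine ⟨l, ?_⟩
        rw [hTe]
        ext z
        simp
      have hf : f ≠ 0 := by
        rintro rfl
        apply hT
        refine ⟨l, ?_⟩
        rw [hTe]
        ext z
        simp
      obtain ⟨ζ, hζ, hg⟩ := rank_one_case (l := l) (m := m) hH hu hf (g := g) (by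
        intro x y hxy
        rw [← hTe, ← hTe']
        exact h x y hxy)
      refine ⟨ζ, m - ζ * l, hζ, ?_⟩
      rw [hTe, hTe', hg]
      ext z
      simp only [add_apply, smul_apply,
        one_apply_eq_self, rk_apply, smul_eq_mul]
      module

end E8A

open E8A in
theorem lin_of_F1 {H : Type*} [NormedAddCommGroup H] [InnerProductSpace ℂ H] [CompleteSpace H]
    (hH : Dim3 H) {T T' : H →L[ℂ] H}
    (h : ∀ x y, inner ℂ x y = (0 : ℂ) → max ‖(inner ℂ y (T x) : ℂ)‖ ‖(inner ℂ x (T y) : ℂ)‖ =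
      max ‖(inner ℂ y (T' x) : ℂ)‖ ‖(inner ℂ x (T' y) : ℂ)‖) :
    ∃ α β : ℂ, ‖α‖ = 1 ∧ (T' = α • T + β • (1 : H →L[ℂ] H) ∨
      T' = α • adjoint T + β • (1 : H →L[ℂ] H)) := by
  have nadj : ∀ (A : H →L[ℂ] H) (x y : H),
      ‖(inner ℂ y (adjoint A x) : ℂ)‖ = ‖(inner ℂ x (A y) : ℂ)‖ := by
    intro A x y
    rw [adjoint_inner_right, ← inner_conj_symm, RCLike.norm_conj]
  have hloc : ∀ x, ¬ LinearIndependent ℂ ![x, T x, T' x] ∨
      ¬ LinearIndependent ℂ ![x, adjoint T x, T' x] := by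
    intro x
    have h1 : ∀ y : H, inner ℂ x y = (0 : ℂ) →
        max ‖(inner ℂ y (T x) : ℂ)‖ ‖(inner ℂ y (adjoint T x) : ℂ)‖ =
        max ‖(inner ℂ y (T' x) : ℂ)‖ ‖(inner ℂ y (adjoint T' x) : ℂ)‖ := by
      intro y hy
      rw [nadj, nadj]
      exact h x y hy
    rcases two_vec h1 with ⟨a, b, hab⟩ | ⟨a, b, hab⟩
    · left
      rw [li3_iff]
      intro hcon
      have := (hcon (-a) (-b) 1 (by rw [hab]; module)).2.2
      exact one_ne_zero this
    · right
      rw [li3_iff]
      intro hcon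
      have := (hcon (-a) (-b) 1 (by rw [hab]; module)).2.2
      exact one_ne_zero this
  rcases dichotomy T (adjoint T) T' hloc with hP | hQ
  · obtain ⟨α, β, h1, h2⟩ := case_main hH h hP
    exact ⟨α, β, h1, Or.inl h2⟩
  · obtain ⟨α, β, h1, h2⟩ := case_main (T := adjoint T) hH (by
      intro x y hxy
      rw [nadj, nadj, max_comm]
      exact h x y hxy) hQ
    exact ⟨α, β, h1, Or.inr h2⟩

end e8a

end PR
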